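import Pool.Agent.H37.IS.Stm

set_option autoImplicit false

namespace H64.IS

open H37.IS N36365310

theorem t_CMB : S_CMB := by
  classical
  intro f L R h1 h2 h3
  have hex : ∃ k, L ≤ k ∧ f (k + 1) ≤ f k := ⟨max L R, le_max_left _ _, h3 _ (le_max_right _ _)⟩
  refine ⟨Nat.find hex, ?_, ?_⟩
  · intro i hi
    by_cases hL : i < L
    · exact h1 i hL
    · have := Nat.find_min hex hi
      by_contra hc
      exact this ⟨by omega, by omega⟩
  · obtain ⟨hm1, hm2⟩ := Nat.find_spec hex
    intro i hi
    induction i, hi using Nat.le_induction with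
    | base => exact hm2
    | succ i hi ih =>
      by_cases hR : R ≤ i + 1
      · exact h3 _ hR
      · have := h2 (i + 1) (by omega) (by omega) (by omega)
        have e : i + 1 - 1 = i := by omega
        rw [e] at this
        omega

theorem t_SRT (hBA1 : S_BA1) : S_SRT := by
  intro ι F N c a s i0 hF k hk
  unfold sumch
  apply Finset.sum_le_sum
  intro i hi
  have hs := hF.hs i hi
  have hsk : s i ≤ k := by omega
  unfold ch
  rw [if_pos (by omega), if_pos hsk]
  have e : k + 1 - s i = (k - s i) + 1 := by omega
  rw [e]
  exact hBA1.2 _ _ (by omega)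

end H64.IS
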